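import Mathlib

open ArithmeticFunction

namespace Pool.Agent.Results.MP_e6b4b8_nt.Counterexample

theorem no_run (k : ℕ) (hk : 14 ≤ k) (n : ℕ) :
    ¬ ∀ j < k, ArithmeticFunction.moebius ((n + j) ^ 2 + 1) = 1 := by
  intro h
  have key : ∃ j < 14, 5 * 5 ∣ (n + j) ^ 2 + 1 := by
    have hr : n % 25 < 25 := Nat.mod_lt _ (by norm_num)
    have aux : ∀ r < 25, ∃ j < 14, ((r + j) ^ 2 + 1) % 25 = 0 := by decide
    obtain ⟨j, hj, hj0⟩ := aux _ hr
    refine ⟨j, hj, Nat.dvd_of_mod_eq_zero ?_⟩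
    have h1 : (n + j) ≡ (n % 25 + j) [MOD 25] := ((Nat.mod_modEq n 25).symm).add_right j
    have h2 : (n + j) ^ 2 + 1 ≡ (n % 25 + j) ^ 2 + 1 [MOD 25] := (h1.pow 2).add_right 1
    show ((n + j) ^ 2 + 1) % 25 = 0
    rw [h2, hj0]
  obtain ⟨j, hj, hd⟩ := key
  have h1 := h j (by omega)
  have hns : ¬ Squarefree ((n + j) ^ 2 + 1) := by
    intro hs
    have := hs 5 hd
    norm_num at this
  rw [ArithmeticFunction.moebius_eq_zero_of_not_squarefree hns] at h1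
  exact absurd h1 (by norm_num)

theorem result : ∀ k : ℕ, 14 ≤ k → ∀ n : ℕ,
    ¬ ∀ j < k, ArithmeticFunction.moebius ((n + j) ^ 2 + 1) = 1 :=
  no_run

end Pool.Agent.Results.MP_e6b4b8_nt.Counterexample
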